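import Pool.Agent.Helper13.RP.Sum
import Pool.Agent.Helper91.CPX.Collision

/-!
RP-7, step 2 (MP_464c42_nt). From `n + 2` forms with separate bounds to `r` forms with a small product of the
radicals, in one dyadic range of heights; the bound for given radicals and the selection are parameters.
-/

set_option autoImplicit false

open Pool.Agent.Helper87.Camp Pool.Agent.Helper10 Pool.Agent.Helper91.CPX

namespace Pool.Agent.Helper66.RP

open Pool.Agent.Helper24.TU Pool.Agent.Helper87.RP Pool.Agent.Helper13.RP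

/-- The bound for `n + 2` forms and the radicals at most `Y i`; `QB Y Q` : the number `Q` is admissible. -/
def FixB (n : ℕ) (QB : (Fin (n + 2) → ℕ) → ℝ → Prop) : Prop :=
  ∀ ε : ℝ, 0 < ε → ∃ lam0 : ℝ, 0 < lam0 ∧ ∀ lam : ℝ, 0 < lam → lam ≤ lam0 →
      ∀ (S : Finset ℕ) (L : Matrix (Fin (n + 2)) (Fin (n + 1)) ℤ), (∀ i, minor L i ≠ 0) →
      ∃ Cmin : ℕ, 1 ≤ Cmin ∧ ∀ K0 : ℕ, Cmin ≤ K0 → ∃ C : ℝ, 1 ≤ C ∧
      ∀ (H : ℕ) (Y : Fin (n + 2) → ℕ), 1 ≤ H →
      (∀ i, 1 ≤ Y i ∧ (Y i : ℝ) ≤ ((K0 * H : ℕ) : ℝ) ^ lam) → ∀ T : Finset (Fin (n + 1) → ℤ),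
      (∀ x ∈ T, (∀ d : ℤ, (∀ j, d ∣ x j) → IsUnit d) ∧ ht x ≤ H ∧ H ≤ 2 * ht x ∧
        ∀ i, form L i x ≠ 0 ∧ radS S (form L i x) ≤ Y i) →
      ∀ Q : ℝ, 0 ≤ Q → QB Y Q →
      (T.card : ℝ) ≤ C * (Q * ((K0 * H : ℕ) : ℝ) ^ (ε * lam))

/-- The selection of `n + 2` of `r` numbers. -/
def SelB (n r : ℕ) (e c : ℝ) (QB : (Fin (n + 2) → ℕ) → ℝ → Prop) : Prop :=
  ∀ R : Fin r → ℕ, (∀ i, 1 ≤ R i) → ∃ t : Fin (n + 2) → Fin r, Function.Injective t ∧
    ∀ Y : Fin (n + 2) → ℕ, (∀ i, 1 ≤ Y i ∧ Y i ≤ 2 * R (t i)) →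
      QB Y (c * ((∏ i, R i : ℕ) : ℝ) ^ e)

private lemma radS_le_natAbs (S : Finset ℕ) (a : ℤ) (ha : a ≠ 0) : radS S a ≤ a.natAbs := by
  apply Nat.le_of_dvd (Int.natAbs_pos.2 ha)
  unfold radS
  refine dvd_trans (Finset.prod_dvd_prod_of_subset _ _ (fun p => p) (Finset.filter_subset _ _)) ?_
  exact Nat.prod_primeFactors_dvd _

private lemma lin_le {r n : ℕ} (L : Matrix (Fin r) (Fin (n + 1)) ℤ) (i : Fin r)
    (x : Fin (n + 1) → ℤ) : (lin L i x).natAbs ≤ (∑ i, ∑ j, (L i j).natAbs) * ht x := by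
  have h1 : (lin L i x).natAbs ≤ (∑ j, (L i j).natAbs) * ht x := by
    unfold lin
    rw [Finset.sum_mul]
    refine (Int.natAbs_sum_le _ _).trans (Finset.sum_le_sum fun j _ => ?_)
    rw [Int.natAbs_mul]
    exact Nat.mul_le_mul_left _ (le_ht x j)
  refine h1.trans (Nat.mul_le_mul_right _ ?_)
  exact Finset.single_le_sum (f := fun i => ∑ j, (L i j).natAbs) (fun _ _ => Nat.zero_le _)
    (Finset.mem_univ i)

theorem minor_sub {n r : ℕ} {L : Matrix (Fin r) (Fin (n + 1)) ℤ} (hL : GenPos L)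
    (t : Fin (n + 2) → Fin r) (ht : Function.Injective t) (i : Fin (n + 2)) :
    minor (L.submatrix t id) i ≠ 0 := by
  have h := hL (t ∘ i.succAbove) (ht.comp Fin.succAbove_right_injective)
  unfold minor
  rw [Matrix.submatrix_submatrix]
  exact h

theorem dy_of {n r : ℕ} {e c : ℝ} (he : 0 ≤ e) (hc : 1 ≤ c)
    {QB : (Fin (n + 2) → ℕ) → ℝ → Prop} (hfix : FixB n QB) (hsel : SelB n r e c QB) : Dy n r e := by
  classical
  intro ε hε
  obtain ⟨lam0, hlam0, hmain⟩ := hfix (ε / 2) (by positivity)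
  refine ⟨lam0, hlam0, fun lam hlam hle S L hL => ?_⟩
  obtain ⟨K, hK1, hK2⟩ : ∃ K : ℕ, 1 ≤ K ∧ 2 ≤ (K : ℝ) ^ lam := by
    refine ⟨⌈(2 : ℝ) ^ (1 / lam)⌉₊, Nat.one_le_ceil_iff.2 (by positivity), ?_⟩
    have h1 : (2 : ℝ) ^ (1 / lam) ≤ (⌈(2 : ℝ) ^ (1 / lam)⌉₊ : ℝ) := Nat.le_ceil _
    have h2 := Real.rpow_le_rpow (by positivity) h1 hlam.le
    rwa [← Real.rpow_mul (by norm_num), one_div_mul_cancel hlam.ne', Real.rpow_one] at h2
  -- the constants of the minors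
  have hall : ∀ t : Fin (n + 2) → Fin r, ∃ Cmin : ℕ, 1 ≤ Cmin ∧ (Function.Injective t →
      ∀ K0 : ℕ, Cmin ≤ K0 → ∃ C : ℝ, 1 ≤ C ∧
      ∀ (H : ℕ) (Y : Fin (n + 2) → ℕ), 1 ≤ H →
      (∀ i, 1 ≤ Y i ∧ (Y i : ℝ) ≤ ((K0 * H : ℕ) : ℝ) ^ lam) → ∀ T : Finset (Fin (n + 1) → ℤ),
      (∀ x ∈ T, (∀ d : ℤ, (∀ j, d ∣ x j) → IsUnit d) ∧ ht x ≤ H ∧ H ≤ 2 * ht x ∧
        ∀ i, form (L.submatrix t id) i x ≠ 0 ∧ radS S (form (L.submatrix t id) i x) ≤ Y i) →
      ∀ Q : ℝ, 0 ≤ Q → QB Y Q →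
      (T.card : ℝ) ≤ C * (Q * ((K0 * H : ℕ) : ℝ) ^ (ε / 2 * lam))) := by
    intro t
    by_cases ht : Function.Injective t
    · obtain ⟨Cm, h1, h2⟩ := hmain lam hlam hle S (L.submatrix t id)
        (minor_sub hL t ht)
      exact ⟨Cm, h1, fun _ => h2⟩
    · exact ⟨1, le_rfl, fun h => absurd h ht⟩
  choose Cf hCf1 hCf using hall
  obtain ⟨A, hA⟩ : ∃ A, A = ∑ i, ∑ j, (L i j).natAbs := ⟨_, rfl⟩
  obtain ⟨K0, hK0⟩ : ∃ K0, K0 = K + ∑ t, Cf t + A := ⟨_, rfl⟩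
  have hKK0 : K ≤ K0 := by omega
  have hAK0 : A ≤ K0 := by omega
  have hK01 : 1 ≤ K0 := hK1.trans hKK0
  have hCK0 : ∀ t, Cf t ≤ K0 := by
    intro t
    have := Finset.single_le_sum (f := Cf) (fun _ _ => Nat.zero_le _) (Finset.mem_univ t)
    omega
  have hall2 : ∀ t : Fin (n + 2) → Fin r, ∃ C : ℝ, 1 ≤ C ∧ (Function.Injective t →
      ∀ (H : ℕ) (Y : Fin (n + 2) → ℕ), 1 ≤ H →
      (∀ i, 1 ≤ Y i ∧ (Y i : ℝ) ≤ ((K0 * H : ℕ) : ℝ) ^ lam) → ∀ T : Finset (Fin (n + 1) → ℤ),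
      (∀ x ∈ T, (∀ d : ℤ, (∀ j, d ∣ x j) → IsUnit d) ∧ ht x ≤ H ∧ H ≤ 2 * ht x ∧
        ∀ i, form (L.submatrix t id) i x ≠ 0 ∧ radS S (form (L.submatrix t id) i x) ≤ Y i) →
      ∀ Q : ℝ, 0 ≤ Q → QB Y Q →
      (T.card : ℝ) ≤ C * (Q * ((K0 * H : ℕ) : ℝ) ^ (ε / 2 * lam))) := by
    intro t
    by_cases ht : Function.Injective t
    · obtain ⟨C, h1, h2⟩ := hCf t ht K0 (hCK0 t)
      exact ⟨C, h1, fun _ => h2⟩
    · exact ⟨1, le_rfl, fun h => absurd h ht⟩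
  choose Ce hCe1 hCe using hall2
  obtain ⟨C4, hC4, hlog⟩ := clog_pow_le (n + 2) (by omega) (ε / 2 * lam) (by positivity)
  have hCs : 0 ≤ ∑ t, Ce t := Finset.sum_nonneg fun t _ => by linarith [hCe1 t]
  refine ⟨C4 * ((∑ t, Ce t) * c), K0, by positivity, hK01, ?_⟩
  intro H hH T hT
  obtain ⟨N, hN⟩ : ∃ N, N = K0 * H := ⟨_, rfl⟩
  have hN1 : 1 ≤ N := by rw [hN]; exact Nat.mul_pos (by omega) (by omega)
  have hNR : (1 : ℝ) ≤ N := by exact_mod_cast hN1
  have hN0 : (0 : ℝ) < N := by linarith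
  have hHR : (1 : ℝ) ≤ H := by exact_mod_cast hH
  have hHN : (H : ℝ) ≤ N := by
    have : H ≤ N := by
      rw [hN]
      exact Nat.le_mul_of_pos_left _ (by omega)
    exact_mod_cast this
  have h2H : 2 * (H : ℝ) ^ lam ≤ (N : ℝ) ^ lam := by
    have h1 : ((K * H : ℕ) : ℝ) ≤ N := by
      rw [hN]
      exact_mod_cast Nat.mul_le_mul_right _ hKK0
    refine le_trans ?_ (Real.rpow_le_rpow (Nat.cast_nonneg _) h1 hlam.le)
    rw [Nat.cast_mul, Real.mul_rpow (Nat.cast_nonneg _) (Nat.cast_nonneg _)]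
    exact mul_le_mul_of_nonneg_right hK2 (by positivity)
  -- data of a point
  obtain ⟨R, hR⟩ : ∃ R : (Fin (n + 1) → ℤ) → Fin r → ℕ, R = fun x i => radS S (lin L i x) :=
    ⟨_, rfl⟩
  have hR1 : ∀ x i, 1 ≤ R x i := by
    intro x i
    rw [hR]
    exact radS_pos S _
  have hdata : ∀ x : Fin (n + 1) → ℤ, ∃ t : Fin (n + 2) → Fin r, Function.Injective t ∧
      ∀ Y : Fin (n + 2) → ℕ, (∀ i, 1 ≤ Y i ∧ Y i ≤ 2 * R x (t i)) →
        QB Y (c * ((∏ i, R x i : ℕ) : ℝ) ^ e) := fun x => hsel (R x) (hR1 x)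
  choose tt htt1 htt2 using hdata
  have hprod : ∀ x ∈ T, ((∏ i, R x i : ℕ) : ℝ) ≤ (H : ℝ) ^ lam := by
    intro x hx
    obtain ⟨h1, h2, h3, h4, h5⟩ := hT x hx
    rw [hR]
    push_cast
    exact h5.trans (Real.rpow_le_rpow (Nat.cast_nonneg _) (by exact_mod_cast h2) hlam.le)
  have hRle : ∀ x ∈ T, ∀ i : Fin r, (R x i : ℝ) ≤ (H : ℝ) ^ lam := by
    intro x hx i
    refine le_trans ?_ (hprod x hx)
    have h1 : R x i ≤ ∏ i, R x i :=
      Finset.single_le_prod' (f := fun i => R x i) (fun i _ => hR1 x i) (Finset.mem_univ i)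
    exact_mod_cast h1
  have hRN : ∀ x ∈ T, ∀ i : Fin r, R x i ≤ N := by
    intro x hx i
    calc R x i = radS S (lin L i x) := by rw [hR]
      _ ≤ (lin L i x).natAbs := radS_le_natAbs _ _ ((hT x hx).2.2.2.1 i)
      _ ≤ (∑ i, ∑ j, (L i j).natAbs) * ht x := lin_le L i x
      _ = A * ht x := by rw [hA]
      _ ≤ K0 * H := Nat.mul_le_mul hAK0 (hT x hx).2.1
      _ = N := hN.symm
  -- sum over the selections
  have hsum : (T.card : ℝ) ≤ ∑ t : Fin (n + 2) → Fin r,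
      ((T.filter (fun x => tt x = t)).card : ℝ) := by
    rw [Finset.card_eq_sum_card_fiberwise (f := tt) (t := Finset.univ)
      (fun x _ => Finset.mem_coe.2 (Finset.mem_univ _))]
    push_cast
    exact le_rfl
  have hfib : ∀ t : Fin (n + 2) → Fin r, ((T.filter (fun x => tt x = t)).card : ℝ) ≤
      (C4 * (N : ℝ) ^ (ε / 2 * lam)) * (Ce t * (c * (N : ℝ) ^ (e * lam) *
        (N : ℝ) ^ (ε / 2 * lam))) := by
    intro t
    have hK : (0 : ℝ) ≤ Ce t * (c * (N : ℝ) ^ (e * lam) * (N : ℝ) ^ (ε / 2 * lam)) := by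
      have := hCe1 t
      positivity
    have h1 : ((T.filter (fun x => tt x = t)).card : ℝ) ≤
        (Ce t * (c * (N : ℝ) ^ (e * lam) * (N : ℝ) ^ (ε / 2 * lam))) *
          ((Fintype.piFinset fun _ : Fin (n + 2) => Finset.range (Nat.clog 2 N + 1)).card : ℝ) := by
      apply card_le_real (fun x => fun i : Fin (n + 2) => Nat.clog 2 (R x (t i)))
      · intro x hx
        rw [Finset.mem_filter] at hx
        rw [Fintype.mem_piFinset]
        intro i
        rw [Finset.mem_range]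
        exact Nat.lt_succ_of_le (Nat.clog_mono_right 2 (hRN x hx.1 _))
      · intro u _
        rcases ((T.filter (fun x => tt x = t)).filter
          (fun x => (fun i : Fin (n + 2) => Nat.clog 2 (R x (t i))) = u)).eq_empty_or_nonempty with
          h0 | ⟨x0, hx0⟩
        · rw [h0, Finset.card_empty, Nat.cast_zero]
          exact hK
        · have hkey : ∀ x ∈ (T.filter (fun x => tt x = t)).filter
              (fun x => (fun i : Fin (n + 2) => Nat.clog 2 (R x (t i))) = u), x ∈ T ∧ tt x = t ∧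
              ∀ i, Nat.clog 2 (R x (t i)) = u i := by
            intro x hx
            have m1 := Finset.mem_filter.1 hx
            have m2 := Finset.mem_filter.1 m1.1
            exact ⟨m2.1, m2.2, fun i => congrFun m1.2 i⟩
          obtain ⟨g1, g2, g3⟩ := hkey x0 hx0
          have hinj : Function.Injective t := by
            rw [← g2]
            exact htt1 x0
          have hY2 : ∀ i, 2 ^ u i ≤ 2 * R x0 (t i) := by
            intro i
            rw [← g3 i]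
            exact two_pow_clog_le _ (hR1 _ _)
          have hYN : ∀ i, ((2 ^ u i : ℕ) : ℝ) ≤ ((K0 * H : ℕ) : ℝ) ^ lam := by
            intro i
            rw [← hN]
            refine le_trans ?_ h2H
            have k1 : ((2 ^ u i : ℕ) : ℝ) ≤ 2 * (R x0 (t i) : ℝ) := by exact_mod_cast hY2 i
            exact k1.trans (mul_le_mul_of_nonneg_left (hRle x0 g1 _) (by norm_num))
          have hq := htt2 x0 (fun i => 2 ^ u i) (fun i => ⟨Nat.one_le_two_pow, by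
            rw [g2]
            exact hY2 i⟩)
          have hq0 : 0 ≤ c * ((∏ i, R x0 i : ℕ) : ℝ) ^ e := by positivity
          have key := hCe t hinj H (fun i => 2 ^ u i) hH
            (fun i => ⟨Nat.one_le_two_pow, hYN i⟩)
            ((T.filter (fun x => tt x = t)).filter
              (fun x => (fun i : Fin (n + 2) => Nat.clog 2 (R x (t i))) = u)) (by
              intro x hx
              obtain ⟨k1, k2, k3⟩ := hkey x hx
              obtain ⟨m1, m2, m3, m4, m5⟩ := hT x k1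
              refine ⟨m1, m2, m3, fun i => ⟨m4 (t i), ?_⟩⟩
              have k4 : R x (t i) ≤ 2 ^ u i := by
                rw [← k3 i]
                exact Nat.le_pow_clog (by norm_num) _
              rw [hR] at k4
              exact k4) _ hq0 hq
          rw [← hN] at key
          refine key.trans ?_
          have hCe0 : 0 ≤ Ce t := by linarith [hCe1 t]
          refine mul_le_mul_of_nonneg_left ?_ hCe0
          refine mul_le_mul_of_nonneg_right ?_ (by positivity)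
          refine mul_le_mul_of_nonneg_left ?_ (by linarith)
          have k5 : ((∏ i, R x0 i : ℕ) : ℝ) ≤ (N : ℝ) ^ lam :=
            (hprod x0 g1).trans (Real.rpow_le_rpow (Nat.cast_nonneg _) hHN hlam.le)
          calc ((∏ i, R x0 i : ℕ) : ℝ) ^ e ≤ ((N : ℝ) ^ lam) ^ e :=
                Real.rpow_le_rpow (Nat.cast_nonneg _) k5 he
            _ = (N : ℝ) ^ (e * lam) := by
                rw [← Real.rpow_mul hN0.le, mul_comm]
    have h2 : ((Fintype.piFinset fun _ : Fin (n + 2) => Finset.range (Nat.clog 2 N + 1)).card : ℝ) ≤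
        C4 * (N : ℝ) ^ (ε / 2 * lam) := by
      rw [Fintype.card_piFinset]
      have h3 := hlog N hN1
      simpa using h3
    calc ((T.filter (fun x => tt x = t)).card : ℝ) ≤ _ := h1
      _ ≤ (Ce t * (c * (N : ℝ) ^ (e * lam) * (N : ℝ) ^ (ε / 2 * lam))) *
          (C4 * (N : ℝ) ^ (ε / 2 * lam)) := mul_le_mul_of_nonneg_left h2 hK
      _ = _ := by ring
  have hpow : (N : ℝ) ^ (ε / 2 * lam) * ((N : ℝ) ^ (e * lam) * (N : ℝ) ^ (ε / 2 * lam)) =
      (N : ℝ) ^ ((e + ε) * lam) := by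
    rw [← Real.rpow_add hN0, ← Real.rpow_add hN0]
    congr 1
    ring
  rw [← hN]
  calc (T.card : ℝ) ≤ ∑ t : Fin (n + 2) → Fin r,
        ((T.filter (fun x => tt x = t)).card : ℝ) := hsum
    _ ≤ ∑ t : Fin (n + 2) → Fin r, (C4 * (N : ℝ) ^ (ε / 2 * lam)) *
        (Ce t * (c * (N : ℝ) ^ (e * lam) * (N : ℝ) ^ (ε / 2 * lam))) :=
        Finset.sum_le_sum fun t _ => hfib t
    _ = C4 * ((∑ t, Ce t) * c) * ((N : ℝ) ^ (ε / 2 * lam) * ((N : ℝ) ^ (e * lam) *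
          (N : ℝ) ^ (ε / 2 * lam))) := by
        rw [← Finset.mul_sum, ← Finset.sum_mul]
        ring
    _ = _ := by rw [hpow]

end Pool.Agent.Helper66.RP
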