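import Pool.Agent.Helper66.RP.DyOf
import Pool.Agent.Helper87.RP.SelQ

/-!
RP, Q3 (MP_464c42_nt). The sharp exponent for `r ≥ n + 2` forms from the bound with a free parameter `Q`.
-/

set_option autoImplicit false

open Pool.Agent.Helper87.Camp Pool.Agent.Helper10 Pool.Agent.Helper91.CPX

namespace Pool.Agent.Helper66.RP

open Pool.Agent.Helper24.TU Pool.Agent.Helper87.RP Pool.Agent.Helper13.RP

/-- The number `Q` bounds all products of the `Y i` without the largest one and with the square roots of two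
others. -/
def QBQ (n : ℕ) (Y : Fin (n + 2) → ℕ) (Q : ℝ) : Prop :=
  ∀ t j l : Fin (n + 2), t ≠ j → t ≠ l → j ≠ l → (∀ i, Y i ≤ Y t) →
    ((∏ i, Y i : ℕ) : ℝ) / ((Y t : ℝ) * Real.sqrt ((Y j : ℝ) * Y l)) ≤ Q

theorem main_q_of (n r : ℕ) (hn : 1 ≤ n) (hr : n + 2 ≤ r) (hfix : FixB n (QBQ n)) :
    Bd1 n r (max ((n : ℝ) / r) (((n : ℝ) - 1) / (r - 2))) := by
  have he : 0 ≤ max ((n : ℝ) / r) (((n : ℝ) - 1) / (r - 2)) :=
    le_max_of_le_left (by positivity)
  refine sum_dy he (dy_of (c := 2 ^ r) he (one_le_pow₀ (by norm_num)) hfix ?_)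
  intro R hR
  obtain ⟨t, ht, h⟩ := sel_qY hn hr R hR
  exact ⟨t, ht, fun Y hY => h Y hY⟩

end Pool.Agent.Helper66.RP
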